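import Mathlib
import Pool.Agent.N191.DijCtr

set_option autoImplicit false

namespace Pool.Agent.Results.MP_b667bb_co.OneCentreTrees

/-- `u` is the centre of a subgraph of `G` isomorphic to the spider S(4,3,3): three paths of
lengths 4, 3 and 3 start at `u` and are otherwise disjoint (11 different vertices in all). -/
def IsCentre433 {V : Type} (G : SimpleGraph V) (u : V) : Prop :=
  ∃ a₁ a₂ a₃ a₄ b₁ b₂ b₃ c₁ c₂ c₃ : V,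
    G.Adj u a₁ ∧ G.Adj a₁ a₂ ∧ G.Adj a₂ a₃ ∧ G.Adj a₃ a₄ ∧
    G.Adj u b₁ ∧ G.Adj b₁ b₂ ∧ G.Adj b₂ b₃ ∧
    G.Adj u c₁ ∧ G.Adj c₁ c₂ ∧ G.Adj c₂ c₃ ∧
    [u, a₁, a₂, a₃, a₄, b₁, b₂, b₃, c₁, c₂, c₃].Nodup

/-- Q1 holds for every finite tree which has no subtree isomorphic to the spider S(4,4,3) (legs of
lengths 4, 4 and 3, 12 vertices) and in which at most one vertex is the centre of a subtree
isomorphic to the spider S(4,3,3) (legs of lengths 4, 3 and 3, 11 vertices). -/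
theorem result :
    ∀ (V : Type) [Fintype V] (G : SimpleGraph V), G.IsTree →
      (∀ u a₁ a₂ a₃ a₄ d₁ d₂ d₃ d₄ b₁ b₂ b₃ : V,
        G.Adj u a₁ → G.Adj a₁ a₂ → G.Adj a₂ a₃ → G.Adj a₃ a₄ →
        G.Adj u d₁ → G.Adj d₁ d₂ → G.Adj d₂ d₃ → G.Adj d₃ d₄ →
        G.Adj u b₁ → G.Adj b₁ b₂ → G.Adj b₂ b₃ →
        ¬ [u, a₁, a₂, a₃, a₄, d₁, d₂, d₃, d₄, b₁, b₂, b₃].Nodup) →
      (∀ u u' : V, IsCentre433 G u → IsCentre433 G u' → u = u') →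
      ∀ (L : Set (Set V)),
        (∀ A ∈ L, ∀ B ∈ L, A ∩ B ∈ L ∧ A ∪ B ∈ L) →
        (∀ U ∈ L, U ≠ ∅ → U ≠ Set.univ →
          2 ≤ {p : V × V | p.1 ∈ U ∧ p.2 ∉ U ∧ G.Adj p.1 p.2}.ncard) →
        ∃ D : V → V → Prop,
          (∀ u v, G.Adj u v ↔ (D u v ∨ D v u)) ∧
          (∀ u v, D u v → ¬ D v u) ∧
          (∀ U ∈ L, U ≠ ∅ → U ≠ Set.univ →
            (∃ u ∈ U, ∃ v, v ∉ U ∧ D u v) ∧
            (∃ u ∈ U, ∃ v, v ∉ U ∧ D v u)) := by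
  intro V _ G hG hfree hone L hL hd
  refine Pool.Agent.N191.Dij.main_aux' _ V G rfl hG hfree hone L hL ?_
  intro S hS h1 h2
  obtain ⟨a, b, ha, hb, hab⟩ := (Set.one_lt_ncard_iff (Set.toFinite _)).mp (hd S hS h1 h2)
  refine ⟨a.1, a.2, b.1, b.2, ha.1, ha.2.1, ha.2.2, hb.1, hb.2.1, hb.2.2, ?_⟩
  by_contra h
  push Not at h
  exact hab (Prod.ext h.1 h.2)

end Pool.Agent.Results.MP_b667bb_co.OneCentreTrees
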