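import Pool.Agent.N257.TreeShortD

/-!
# Two-way orientations of trees for lattice families generated by short arcs

Let `G` be a finite tree and let `L` be the family of all vertex sets closed under a relation `R`
all of whose pairs `(u, v)` have distance at most three in `G`. If every proper nonempty member of
`L` has at least two cut edges, then `G` has an orientation with an arc leaving and an arc entering
every proper nonempty member of `L`.

Idea of the proof. Induction on the number of vertices and the number of arcs. We may assume that
no arc of `R` can be deleted; then every arc is the only arc leaving some side of some tree edge.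
Take a deepest leaf `z` of the tree (rooted somewhere) with parent `a`, and contract the edge `z a`.
If `z` has a unique arc to a vertex at distance at most one from `a` (or from such a vertex) the
orientation of the contraction extends (`lemA`). Otherwise criticality forces all other ends of
arcs at `z` to be neighbours of the parent `m` of `a` (`classify`), and then the orientation extends
after reversing at most one edge, the edge `m a` (`lemB0`, `ns_flip`, `lemB1`).
-/

namespace Pool.Agent.Results.MP_b667bb_co.ShortArcs

theorem result (V : Type) [Fintype V] (G : SimpleGraph V) (hG : G.IsTree)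
    (L : Set (Set V)) (R : V → V → Prop)
    (hL : ∀ U : Set V, U ∈ L ↔ ∀ u v, R u v → u ∈ U → v ∈ U)
    (hR : ∀ u v, R u v → G.dist u v ≤ 3)
    (h2 : ∀ U ∈ L, U ≠ ∅ → U ≠ Set.univ →
      2 ≤ {p : V × V | p.1 ∈ U ∧ p.2 ∉ U ∧ G.Adj p.1 p.2}.ncard) :
    ∃ D : V → V → Prop,
      (∀ u v, G.Adj u v ↔ (D u v ∨ D v u)) ∧
      (∀ u v, D u v → ¬ D v u) ∧
      (∀ U ∈ L, U ≠ ∅ → U ≠ Set.univ →
        (∃ u ∈ U, ∃ v, v ∉ U ∧ D u v) ∧
        (∃ u ∈ U, ∃ v, v ∉ U ∧ D v u)) := by
  obtain ⟨D, h1, h3, h4⟩ := Pool.Agent.N257.TreeShort.main G hG R hR
    (fun U hU => h2 U ((hL U).2 hU))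
  exact ⟨D, h1, h3, fun U hU => h4 U ((hL U).1 hU)⟩

end Pool.Agent.Results.MP_b667bb_co.ShortArcs
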